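import Mathlib

open Real Set MeasureTheory Filter Topology

set_option autoImplicit false

namespace Pool.Agent.LiebG

/-- `ℓ(τ) = log ((1+τ)/τ)` -/
noncomputable def ell (t : ℝ) : ℝ := Real.log (1 + t) - Real.log t

theorem ell_nonneg {t : ℝ} (ht : 0 < t) : 0 ≤ ell t := by
  unfold ell
  have := Real.log_le_log ht (show t ≤ 1 + t by linarith)
  linarith

theorem ell_eq {t : ℝ} (ht : 0 < t) : ell t = Real.log ((1 + t) / t) := by
  unfold ell
  rw [Real.log_div (by positivity) (by positivity)]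

theorem ell_le_inv {t : ℝ} (ht : 0 < t) : ell t ≤ 1 / t := by
  rw [ell_eq ht]
  have h : (0 : ℝ) < (1 + t) / t := by positivity
  have := Real.log_le_sub_one_of_pos h
  calc _ ≤ (1 + t) / t - 1 := this
    _ = 1 / t := by field_simp; ring

theorem ell_le_rpow {t : ℝ} (ht : 0 < t) : ell t ≤ 4 * ((1 + t) / t) ^ (1 / 4 : ℝ) := by
  rw [ell_eq ht]
  have h : (0 : ℝ) ≤ (1 + t) / t := by positivity
  have := Real.log_le_rpow_div h (show (0 : ℝ) < 1 / 4 by norm_num)
  calc _ ≤ ((1 + t) / t) ^ (1 / 4 : ℝ) / (1 / 4) := this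
    _ = _ := by ring

theorem hasDerivAt_ell {t : ℝ} (ht : 0 < t) : HasDerivAt ell (1 / (1 + t) - 1 / t) t := by
  unfold ell
  have h1 : HasDerivAt (fun t : ℝ => Real.log (1 + t)) (1 / (1 + t)) t := by
    have := ((hasDerivAt_id t).const_add 1).log (show (1 : ℝ) + id t ≠ 0 by simp; positivity)
    simpa using this
  have h2 : HasDerivAt (fun t : ℝ => Real.log t) (1 / t) t := by
    have := Real.hasDerivAt_log ht.ne'
    simpa using this
  exact h1.sub h2

theorem continuousOn_ell : ContinuousOn ell (Ioi 0) := fun t ht =>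
  (hasDerivAt_ell ht).continuousAt.continuousWithinAt

/-- `ℓ ≤ 8 t^(-1/4)` on `(0,1]`. -/
theorem ell_le_small {t : ℝ} (ht : 0 < t) (ht1 : t ≤ 1) : ell t ≤ 8 * t ^ (-(1 / 4) : ℝ) := by
  refine (ell_le_rpow ht).trans ?_
  have h1 : (1 + t) / t ≤ 2 / t := by gcongr; linarith
  have h2 : ((1 + t) / t) ^ (1 / 4 : ℝ) ≤ (2 / t) ^ (1 / 4 : ℝ) := by
    apply Real.rpow_le_rpow (by positivity) h1 (by norm_num)
  have h3 : (2 / t) ^ (1 / 4 : ℝ) = 2 ^ (1 / 4 : ℝ) * t ^ (-(1 / 4) : ℝ) := by
    rw [Real.div_rpow (by norm_num) ht.le, Real.rpow_neg ht.le]; rfl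
  have h4 : (2 : ℝ) ^ (1 / 4 : ℝ) ≤ 2 := by
    calc (2 : ℝ) ^ (1 / 4 : ℝ) ≤ 2 ^ (1 : ℝ) := by
          apply Real.rpow_le_rpow_of_exponent_le (by norm_num) (by norm_num)
      _ = 2 := by simp
  have h5 : 0 ≤ t ^ (-(1 / 4) : ℝ) := Real.rpow_nonneg ht.le _
  calc _ ≤ 4 * (2 / t) ^ (1 / 4 : ℝ) := by linarith
    _ = 4 * (2 ^ (1 / 4 : ℝ) * t ^ (-(1 / 4) : ℝ)) := by rw [h3]
    _ ≤ 4 * (2 * t ^ (-(1 / 4) : ℝ)) := by gcongr
    _ = _ := by ring

theorem measurable_ell : Measurable ell := by
  unfold ell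
  fun_prop

/-- the dominating function -/
theorem integrableOn_ell_sq : IntegrableOn (fun t => ell t ^ 2) (Ioi 0) := by
  have hunion : Ioi (0 : ℝ) = Ioc 0 1 ∪ Ioi 1 := by
    ext x; simp only [mem_Ioi, mem_union, mem_Ioc]
    constructor
    · intro h; rcases le_or_gt x 1 with h1 | h1
      · exact Or.inl ⟨h, h1⟩
      · exact Or.inr h1
    · rintro (h | h)
      · exact h.1
      · linarith
  rw [hunion]
  apply IntegrableOn.union
  · have h1 : IntegrableOn (fun t : ℝ => 64 * t ^ (-(1 / 2) : ℝ)) (Ioc 0 1) := by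
      have := (intervalIntegral.intervalIntegrable_rpow' (a := 0) (b := 1)
        (show (-1 : ℝ) < -(1 / 2) by norm_num))
      rw [intervalIntegrable_iff_integrableOn_Ioc_of_le zero_le_one] at this
      exact this.const_mul _
    apply Integrable.mono' h1
    · exact (measurable_ell.pow_const 2).aestronglyMeasurable
    · rw [ae_restrict_iff' measurableSet_Ioc]
      refine Eventually.of_forall fun t ht => ?_
      have h2 := ell_le_small ht.1 ht.2
      have h0 := ell_nonneg ht.1
      rw [Real.norm_eq_abs, abs_of_nonneg (by positivity)]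
      have h3 : t ^ (-(1 / 2) : ℝ) = (t ^ (-(1 / 4) : ℝ)) ^ 2 := by
        rw [← Real.rpow_natCast, ← Real.rpow_mul ht.1.le]; norm_num
      rw [h3]
      nlinarith
  · have h1 : IntegrableOn (fun t : ℝ => t ^ (-2 : ℝ)) (Ioi 1) :=
      integrableOn_Ioi_rpow_of_lt (by norm_num) one_pos
    apply Integrable.mono' h1
    · exact (measurable_ell.pow_const 2).aestronglyMeasurable
    · rw [ae_restrict_iff' measurableSet_Ioi]
      refine Eventually.of_forall fun t ht => ?_
      have ht0 : (0 : ℝ) < t := lt_trans one_pos ht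
      have h2 := ell_le_inv ht0
      have h0 := ell_nonneg ht0
      rw [Real.norm_eq_abs, abs_of_nonneg (by positivity)]
      have h3 : t ^ (-2 : ℝ) = (1 / t) ^ 2 := by
        rw [Real.rpow_neg ht0.le]
        have : t ^ (2 : ℝ) = t ^ 2 := by exact_mod_cast Real.rpow_natCast t 2
        rw [this]; field_simp
      rw [h3]
      gcongr

theorem integrableOn_inv_mul {s t : ℝ} (hs : 0 < s) (ht : 0 < t) :
    IntegrableOn (fun x => 1 / ((s + x) * (t + x))) (Ioi 0) := by
  -- dominated by `1 / (min s t + x)^2`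
  have h1 : IntegrableOn (fun x : ℝ => 1 / (min s t + x) ^ 2) (Ioi 0) := by
    set a := min s t with ha
    have ha0 : 0 < a := lt_min hs ht
    have hd : ∀ x ∈ Ici (0 : ℝ), HasDerivAt (fun x => -(1 / (a + x))) (1 / (a + x) ^ 2) x := by
      intro x hx
      have hx' : a + x ≠ 0 := by have : 0 ≤ x := hx; positivity
      have h := (((hasDerivAt_id x).const_add a).inv hx').neg
      refine (h.congr_deriv ?_).congr_of_eventuallyEq ?_
      · simp only [id]
        field_simp
      · exact Eventually.of_forall fun y => by simp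
    apply integrableOn_Ioi_deriv_of_nonneg' (l := 0) hd
    · intro x hx; positivity
    · have : Tendsto (fun x : ℝ => -(1 / (a + x))) atTop (𝓝 (-0)) := by
        apply Tendsto.neg
        simp only [one_div]
        exact tendsto_inv_atTop_zero.comp (tendsto_atTop_add_const_left _ _ tendsto_id)
      simpa using this
  apply Integrable.mono' h1
  · apply Measurable.aestronglyMeasurable
    fun_prop
  · rw [ae_restrict_iff' measurableSet_Ioi]
    refine Eventually.of_forall fun x hx => ?_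
    have hx0 : (0 : ℝ) < x := hx
    rw [Real.norm_eq_abs, abs_of_nonneg (by positivity)]
    have ha0 : 0 < min s t := lt_min hs ht
    apply one_div_le_one_div_of_le (by positivity)
    rw [sq]
    gcongr
    · exact min_le_left _ _
    · exact min_le_right _ _

theorem integrableOn_ell_div {s : ℝ} (hs : 0 < s) :
    IntegrableOn (fun x => ell x / (s + x)) (Ioi 0) := by
  have h1 := integrableOn_ell_sq.add (integrableOn_inv_mul hs hs)
  apply Integrable.mono' h1
  · apply Measurable.aestronglyMeasurable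
    exact measurable_ell.div (by fun_prop)
  · rw [ae_restrict_iff' measurableSet_Ioi]
    refine Eventually.of_forall fun x hx => ?_
    have hx0 : (0 : ℝ) < x := hx
    have h0 := ell_nonneg hx0
    rw [Real.norm_eq_abs, abs_of_nonneg (by positivity)]
    simp only [Pi.add_apply]
    have e : ell x / (s + x) = ell x * (1 / (s + x)) := by ring
    have e2 : 1 / ((s + x) * (s + x)) = (1 / (s + x)) ^ 2 := by field_simp
    rw [e, e2]
    nlinarith [sq_nonneg (ell x - 1 / (s + x)), sq_nonneg (ell x), sq_nonneg (1 / (s + x))]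

theorem tendsto_ell_atTop : Tendsto ell atTop (𝓝 0) := by
  have h1 : Tendsto (fun t : ℝ => 1 / t) atTop (𝓝 0) := by
    simp only [one_div]; exact tendsto_inv_atTop_zero
  refine tendsto_of_tendsto_of_tendsto_of_le_of_le' tendsto_const_nhds h1 ?_ ?_
  · filter_upwards [eventually_gt_atTop 0] with t ht using ell_nonneg ht
  · filter_upwards [eventually_gt_atTop 0] with t ht using ell_le_inv ht

theorem tendsto_mul_ell_zero : Tendsto (fun t => t * ell t) (𝓝[≥] 0) (𝓝 0) := by
  unfold ell
  have h1 : Continuous (fun t : ℝ => t * Real.log t) := Real.continuous_mul_log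
  have h2 : ContinuousAt (fun t : ℝ => t * Real.log (1 + t)) 0 := by
    apply ContinuousAt.mul continuousAt_id
    apply ContinuousAt.log
    · fun_prop
    · norm_num
  have h3 : ContinuousAt (fun t : ℝ => t * Real.log (1 + t) - t * Real.log t) 0 :=
    h2.sub h1.continuousAt
  have h4 : Tendsto (fun t : ℝ => t * Real.log (1 + t) - t * Real.log t) (𝓝[≥] 0) (𝓝 0) := by
    have := h3.tendsto.mono_left (nhdsWithin_le_nhds (s := Ici (0:ℝ)))
    simpa using this
  refine h4.congr fun t => by ring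

/-- `t ℓ(t)^2 → 0` -/
theorem tendsto_mul_ell_sq_zero : Tendsto (fun t => t * ell t ^ 2) (𝓝[≥] 0) (𝓝 0) := by
  -- `t ℓ² ≤ 64 t^{1/2}`
  have h1 : Tendsto (fun t : ℝ => 64 * t ^ (1 / 2 : ℝ)) (𝓝[≥] 0) (𝓝 0) := by
    have hc : ContinuousAt (fun t : ℝ => 64 * t ^ (1 / 2 : ℝ)) 0 := by
      apply ContinuousAt.mul continuousAt_const
      exact Real.continuousAt_rpow_const 0 _ (Or.inr (by norm_num))
    have := hc.tendsto.mono_left (nhdsWithin_le_nhds (s := Ici (0:ℝ)))
    simpa using this
  refine tendsto_of_tendsto_of_tendsto_of_le_of_le' tendsto_const_nhds h1 ?_ ?_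
  · filter_upwards [self_mem_nhdsWithin] with t ht
    have ht' : (0 : ℝ) ≤ t := ht
    positivity
  · have hmem : Iio (1 : ℝ) ∈ 𝓝[≥] (0 : ℝ) := mem_nhdsWithin_of_mem_nhds (Iio_mem_nhds one_pos)
    filter_upwards [self_mem_nhdsWithin, hmem] with t ht ht1
    have ht' : (0 : ℝ) ≤ t := ht
    rcases ht'.eq_or_lt with h0 | h0
    · rw [← h0]; simp
    · have h2 := ell_le_small h0 (le_of_lt ht1)
      have h3 := ell_nonneg h0
      have h4 : t ^ (1 / 2 : ℝ) = t * (t ^ (-(1 / 4) : ℝ)) ^ 2 := by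
        rw [← Real.rpow_natCast, ← Real.rpow_mul h0.le]
        nth_rewrite 2 [← Real.rpow_one t]
        rw [← Real.rpow_add h0]
        norm_num
      rw [h4]
      have h5 : 0 ≤ t ^ (-(1 / 4) : ℝ) := Real.rpow_nonneg h0.le _
      have h6 : ell t ^ 2 ≤ 64 * (t ^ (-(1 / 4) : ℝ)) ^ 2 := by nlinarith
      nlinarith

end Pool.Agent.LiebG
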