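import Mathlib
import Pool.Agent.LiebG.Ints

open Real Set MeasureTheory Filter Topology

set_option autoImplicit false

namespace Pool.Agent.LiebG

theorem tendsto_inv_shift (a : ℝ) : Tendsto (fun x : ℝ => 1 / (a + x)) atTop (𝓝 0) := by
  simp only [one_div]
  exact tendsto_inv_atTop_zero.comp (tendsto_atTop_add_const_left _ _ tendsto_id)

/-- `∫ dx/((s+x)(t+x))` for `s ≠ t`. -/
theorem integral_inv_mul_ne {s t : ℝ} (hs : 0 < s) (ht : 0 < t) (hst : s ≠ t) :
    ∫ x in Ioi (0 : ℝ), 1 / ((s + x) * (t + x)) = (Real.log s - Real.log t) / (s - t) := by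
  have hne : s - t ≠ 0 := sub_ne_zero.mpr hst
  have hd : ∀ x ∈ Ici (0 : ℝ), HasDerivAt
      (fun x => (Real.log (t + x) - Real.log (s + x)) / (s - t)) (1 / ((s + x) * (t + x))) x := by
    intro x hx
    have hx' : (0 : ℝ) ≤ x := hx
    have h1 : s + x ≠ 0 := by positivity
    have h2 : t + x ≠ 0 := by positivity
    have e1 : HasDerivAt (fun x => Real.log (t + x)) (1 / (t + x)) x := by
      simpa using ((hasDerivAt_id x).const_add t).log h2
    have e2 : HasDerivAt (fun x => Real.log (s + x)) (1 / (s + x)) x := by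
      simpa using ((hasDerivAt_id x).const_add s).log h1
    refine ((e1.sub e2).div_const (s - t)).congr_deriv ?_
    field_simp
    ring
  have hlim : Tendsto (fun x => (Real.log (t + x) - Real.log (s + x)) / (s - t)) atTop (𝓝 0) := by
    have h1 : Tendsto (fun x : ℝ => Real.log (t + x) - Real.log (s + x)) atTop (𝓝 0) := by
      have h2 : Tendsto (fun x : ℝ => (t + x) / (s + x)) atTop (𝓝 1) := by
        have h3 : Tendsto (fun x : ℝ => 1 + (t - s) * (1 / (s + x))) atTop (𝓝 (1 + (t - s) * 0)) :=
          ((tendsto_inv_shift s).const_mul _).const_add _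
        rw [mul_zero, add_zero] at h3
        refine h3.congr' ?_
        filter_upwards [eventually_gt_atTop 0] with x hx
        have : s + x ≠ 0 := by positivity
        field_simp
        ring
      have h4 := (Real.continuousAt_log one_ne_zero).tendsto.comp h2
      rw [Real.log_one] at h4
      refine h4.congr' ?_
      filter_upwards [eventually_gt_atTop 0] with x hx
      have h5 : s + x ≠ 0 := by positivity
      have h6 : t + x ≠ 0 := by positivity
      simp only [Function.comp]
      rw [Real.log_div h6 h5]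
    simpa using h1.div_const (s - t)
  rw [integral_Ioi_of_hasDerivAt_of_tendsto' hd (integrableOn_inv_mul hs ht) hlim]
  simp only [add_zero]
  field_simp
  ring

theorem integral_inv_mul_self {s : ℝ} (hs : 0 < s) :
    ∫ x in Ioi (0 : ℝ), 1 / ((s + x) * (s + x)) = 1 / s := by
  have hd : ∀ x ∈ Ici (0 : ℝ), HasDerivAt (fun x => -(1 / (s + x))) (1 / ((s + x) * (s + x))) x := by
    intro x hx
    have hx' : s + x ≠ 0 := by have : 0 ≤ x := hx; positivity
    have h := (((hasDerivAt_id x).const_add s).inv hx').neg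
    refine (h.congr_deriv ?_).congr_of_eventuallyEq ?_
    · simp only [id]
      field_simp
    · exact Eventually.of_forall fun y => by simp
  have hlim : Tendsto (fun x : ℝ => -(1 / (s + x))) atTop (𝓝 0) := by
    simpa using (tendsto_inv_shift s).neg
  rw [integral_Ioi_of_hasDerivAt_of_tendsto' hd (integrableOn_inv_mul hs hs) hlim]
  simp

/-- power integrals -/
theorem integral_pow_shift (a b : ℝ) (ha : 0 < a) (hb : 0 < b) (k : ℕ) :
    IntegrableOn (fun x : ℝ => 1 / (b + a * x) ^ (k + 2)) (Ioi 0) ∧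
    ∫ x in Ioi (0 : ℝ), 1 / (b + a * x) ^ (k + 2) = 1 / (a * (k + 1) * b ^ (k + 1)) := by
  have hd : ∀ x ∈ Ici (0 : ℝ), HasDerivAt (fun x => -(1 / (a * (k + 1) * (b + a * x) ^ (k + 1))))
      (1 / (b + a * x) ^ (k + 2)) x := by
    intro x hx
    have hx0 : (0 : ℝ) ≤ x := hx
    have hx' : b + a * x ≠ 0 := by positivity
    have h0 : HasDerivAt (fun x : ℝ => b + a * x) a x := by
      simpa using ((hasDerivAt_id x).const_mul a).const_add b
    have h00 : HasDerivAt (fun x : ℝ => a * (k + 1) * (b + a * x) ^ (k + 1))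
        (a * (k + 1) * (((k + 1 : ℕ) : ℝ) * (b + a * x) ^ k * a)) x := by
      have := (h0.fun_pow (k + 1)).const_mul (a * (k + 1))
      simpa using this
    have hne : a * (k + 1) * (b + a * x) ^ (k + 1) ≠ 0 := by positivity
    have h1 := (h00.fun_inv hne).neg
    refine (h1.congr_deriv ?_).congr_of_eventuallyEq ?_
    · push_cast
      field_simp
      ring
    · exact Eventually.of_forall fun y => by simp
  have hlim : Tendsto (fun x : ℝ => -(1 / (a * (k + 1) * (b + a * x) ^ (k + 1)))) atTop (𝓝 0) := by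
    have h1 : Tendsto (fun x : ℝ => b + a * x) atTop atTop :=
      tendsto_atTop_add_const_left _ _ (tendsto_id.const_mul_atTop ha)
    have h2 : Tendsto (fun x : ℝ => a * (k + 1) * (b + a * x) ^ (k + 1)) atTop atTop := by
      apply Tendsto.const_mul_atTop (by positivity)
      exact (tendsto_pow_atTop (by omega)).comp h1
    have h3 := (tendsto_inv_atTop_zero.comp h2).neg
    simpa [Function.comp_def] using h3
  have hint : IntegrableOn (fun x : ℝ => 1 / (b + a * x) ^ (k + 2)) (Ioi 0) := by
    apply integrableOn_Ioi_deriv_of_nonneg' hd _ hlim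
    intro x hx
    have hx0 : (0 : ℝ) < x := hx
    positivity
  refine ⟨hint, ?_⟩
  rw [integral_Ioi_of_hasDerivAt_of_tendsto' hd hint hlim]
  simp

theorem integral_ell_div_one : ∫ x in Ioi (0 : ℝ), ell x / (1 + x) = π ^ 2 / 6 := by
  set F : ℕ → ℝ → ℝ := fun k x => (1 / ((k : ℝ) + 1)) * (1 / (1 + 1 * x) ^ (k + 2)) with hF
  have hFint : ∀ k, Integrable (F k) (volume.restrict (Ioi 0)) := fun k =>
    (integral_pow_shift 1 1 one_pos one_pos k).1.const_mul _
  have hFval : ∀ k, ∫ x in Ioi (0 : ℝ), F k x = 1 / ((k : ℝ) + 1) ^ 2 := by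
    intro k
    rw [hF]
    simp only
    rw [integral_const_mul, (integral_pow_shift 1 1 one_pos one_pos k).2]
    simp only [one_pow, mul_one, one_mul]
    field_simp
  have hFnorm : ∀ k, ∫ x in Ioi (0 : ℝ), ‖F k x‖ = 1 / ((k : ℝ) + 1) ^ 2 := by
    intro k
    rw [← hFval k]
    apply setIntegral_congr_fun measurableSet_Ioi
    intro x hx
    have hx0 : (0 : ℝ) < x := hx
    simp only [hF, Real.norm_eq_abs]
    rw [abs_of_nonneg (by positivity)]
  have hz : HasSum (fun k : ℕ => 1 / ((k : ℝ) + 1) ^ 2) (π ^ 2 / 6) := by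
    have h := (hasSum_nat_add_iff' (f := fun n : ℕ => (1 : ℝ) / (n : ℝ) ^ 2) 1).mpr hasSum_zeta_two
    simpa using h
  have hs := hasSum_integral_of_summable_integral_norm hFint (by
    simp only [hFnorm]; exact hz.summable)
  simp only [hFval] at hs
  have h2 : ∫ x in Ioi (0 : ℝ), ∑' k, F k x = ∫ x in Ioi (0 : ℝ), ell x / (1 + x) := by
    apply setIntegral_congr_fun measurableSet_Ioi
    intro x hx
    have hx0 : (0 : ℝ) < x := hx
    have hy : |1 / (1 + x)| < 1 := by
      rw [abs_of_nonneg (by positivity), div_lt_one (by positivity)]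
      linarith
    have h3 := (hasSum_pow_div_log_of_abs_lt_one hy).mul_right (1 / (1 + x))
    have e1 : -Real.log (1 - 1 / (1 + x)) = ell x := by
      have : 1 - 1 / (1 + x) = x / (1 + x) := by field_simp; ring
      rw [this, Real.log_div hx0.ne' (by positivity)]
      unfold ell
      ring
    rw [e1] at h3
    have h4 : HasSum (fun k => F k x) (ell x * (1 / (1 + x))) := by
      have e : (fun k => F k x) = fun k : ℕ => (1 / (1 + x)) ^ (k + 1) / ((k : ℝ) + 1) * (1 / (1 + x)) := by
        funext k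
        simp only [hF, one_mul, one_div, inv_pow]
        field_simp
        ring
      rw [e]
      exact h3
    simp only
    rw [h4.tsum_eq]
    ring
  rw [← h2]
  exact hs.unique hz |>.symm ▸ rfl

theorem hasSum_odd_sq : HasSum (fun k : ℕ => 1 / (2 * (k : ℝ) + 1) ^ 2) (π ^ 2 / 8) := by
  have h := hasSum_zeta_two
  have he : HasSum (fun k : ℕ => (1 : ℝ) / ((2 * k : ℕ) : ℝ) ^ 2) (π ^ 2 / 24) := by
    have := h.mul_left (1 / 4)
    have e : (fun k : ℕ => (1 : ℝ) / ((2 * k : ℕ) : ℝ) ^ 2) = fun k : ℕ => 1 / 4 * (1 / (k : ℝ) ^ 2) := by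
      funext k
      push_cast
      by_cases hk : (k : ℝ) = 0
      · rw [hk]; simp
      · field_simp; norm_num
    rw [e]
    have e2 : π ^ 2 / 24 = 1 / 4 * (π ^ 2 / 6) := by ring
    rw [e2]
    exact this
  have ho : Summable (fun k : ℕ => (1 : ℝ) / ((2 * k + 1 : ℕ) : ℝ) ^ 2) :=
    h.summable.comp_injective (i := fun k : ℕ => 2 * k + 1) (fun a b hab => by
      simp only at hab; omega)
  obtain ⟨S, hS⟩ := ho
  have htot := HasSum.even_add_odd (f := fun n : ℕ => (1 : ℝ) / (n : ℝ) ^ 2) he hS
  have heq := htot.unique h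
  have : S = π ^ 2 / 8 := by linarith
  rw [← this]
  have e : (fun k : ℕ => 1 / (2 * (k : ℝ) + 1) ^ 2) = fun k : ℕ => (1 : ℝ) / ((2 * k + 1 : ℕ) : ℝ) ^ 2 := by
    funext k
    push_cast
    rfl
  rw [e]
  exact hS

theorem integral_ell_div_half : ∫ x in Ioi (0 : ℝ), ell x / (1 / 2 + x) = π ^ 2 / 4 := by
  set F : ℕ → ℝ → ℝ := fun k x => (4 / (2 * (k : ℝ) + 1)) * (1 / (1 + 2 * x) ^ (2 * k + 2)) with hF
  have hFint : ∀ k, Integrable (F k) (volume.restrict (Ioi 0)) := fun k =>
    (integral_pow_shift 2 1 two_pos one_pos (2 * k)).1.const_mul _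
  have hFval : ∀ k, ∫ x in Ioi (0 : ℝ), F k x = 2 * (1 / (2 * (k : ℝ) + 1) ^ 2) := by
    intro k
    rw [hF]
    simp only
    rw [integral_const_mul, (integral_pow_shift 2 1 two_pos one_pos (2 * k)).2]
    push_cast
    simp only [one_pow, mul_one]
    field_simp
    norm_num
  have hFnorm : ∀ k, ∫ x in Ioi (0 : ℝ), ‖F k x‖ = 2 * (1 / (2 * (k : ℝ) + 1) ^ 2) := by
    intro k
    rw [← hFval k]
    apply setIntegral_congr_fun measurableSet_Ioi
    intro x hx
    have hx0 : (0 : ℝ) < x := hx
    simp only [hF, Real.norm_eq_abs]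
    rw [abs_of_nonneg (by positivity)]
  have hz : HasSum (fun k : ℕ => 2 * (1 / (2 * (k : ℝ) + 1) ^ 2)) (π ^ 2 / 4) := by
    have := hasSum_odd_sq.mul_left 2
    have e : π ^ 2 / 4 = 2 * (π ^ 2 / 8) := by ring
    rw [e]
    exact this
  have hs := hasSum_integral_of_summable_integral_norm hFint (by
    simp only [hFnorm]; exact hz.summable)
  simp only [hFval] at hs
  have h2 : ∫ x in Ioi (0 : ℝ), ∑' k, F k x = ∫ x in Ioi (0 : ℝ), ell x / (1 / 2 + x) := by
    apply setIntegral_congr_fun measurableSet_Ioi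
    intro x hx
    have hx0 : (0 : ℝ) < x := hx
    have hy : |1 / (1 + 2 * x)| < 1 := by
      rw [abs_of_nonneg (by positivity), div_lt_one (by positivity)]
      linarith
    have h3 := (hasSum_log_sub_log_of_abs_lt_one hy).mul_right (2 / (1 + 2 * x))
    have e1 : Real.log (1 + 1 / (1 + 2 * x)) - Real.log (1 - 1 / (1 + 2 * x)) = ell x := by
      have e2 : 1 + 1 / (1 + 2 * x) = (2 / (1 + 2 * x)) * (1 + x) := by field_simp; ring
      have e3 : 1 - 1 / (1 + 2 * x) = (2 / (1 + 2 * x)) * x := by field_simp; ring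
      rw [e2, e3, Real.log_mul (by positivity) (by positivity),
        Real.log_mul (by positivity) (by positivity)]
      unfold ell
      ring
    rw [e1] at h3
    have h4 : HasSum (fun k => F k x) (ell x * (2 / (1 + 2 * x))) := by
      have e : (fun k => F k x) = fun k : ℕ => 2 * (1 / (2 * (k : ℝ) + 1)) *
          (1 / (1 + 2 * x)) ^ (2 * k + 1) * (2 / (1 + 2 * x)) := by
        funext k
        simp only [hF, one_div, inv_pow]
        field_simp
        ring
      rw [e]
      exact h3
    simp only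
    rw [h4.tsum_eq]
    field_simp
  rw [← h2]
  exact hs.unique hz |>.symm ▸ rfl

theorem integral_ell_sq : ∫ x in Ioi (0 : ℝ), ell x ^ 2 = π ^ 2 / 3 := by
  have hd : ∀ x ∈ Ioi (0 : ℝ), HasDerivAt (fun x => x * ell x ^ 2)
      (ell x ^ 2 - 2 * (ell x / (1 + x))) x := by
    intro x hx
    have hx0 : (0 : ℝ) < x := hx
    have h1 := (hasDerivAt_id x).fun_mul ((hasDerivAt_ell hx0).fun_pow 2)
    refine h1.congr_deriv ?_
    simp only [id]
    push_cast
    field_simp
    ring
  have hint : IntegrableOn (fun x => ell x ^ 2 - 2 * (ell x / (1 + x))) (Ioi 0) :=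
    integrableOn_ell_sq.sub ((integrableOn_ell_div one_pos).const_mul 2)
  have hcont : ContinuousWithinAt (fun x => x * ell x ^ 2) (Ici 0) 0 := by
    have := tendsto_mul_ell_sq_zero
    unfold ContinuousWithinAt
    simpa using this
  have hlim : Tendsto (fun x => x * ell x ^ 2) atTop (𝓝 0) := by
    have h1 : Tendsto (fun t : ℝ => 1 / t) atTop (𝓝 0) := by
      simp only [one_div]; exact tendsto_inv_atTop_zero
    refine tendsto_of_tendsto_of_tendsto_of_le_of_le' tendsto_const_nhds h1 ?_ ?_
    · filter_upwards [eventually_gt_atTop 0] with t ht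
      positivity
    · filter_upwards [eventually_gt_atTop 0] with t ht
      have h2 := ell_le_inv ht
      have h3 := ell_nonneg ht
      calc t * ell t ^ 2 ≤ t * (1 / t) ^ 2 := by gcongr
        _ = 1 / t := by field_simp
  have h := integral_Ioi_of_hasDerivAt_of_tendsto hcont hd hint hlim
  rw [integral_sub integrableOn_ell_sq ((integrableOn_ell_div one_pos).const_mul 2),
    integral_const_mul, integral_ell_div_one] at h
  simp only [zero_mul, sub_zero] at h
  linarith

end Pool.Agent.LiebG
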