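import Mathlib
import Pool.Agent.LiebG.Vals

open Real Set MeasureTheory Filter Topology

set_option autoImplicit false

namespace Pool.Agent.LiebG

/-- `A(s) = ∫ ℓ(x)/(s+x) dx` -/
noncomputable def Aint (s : ℝ) : ℝ := ∫ x in Ioi (0 : ℝ), ell x / (s + x)

theorem integral_ell_div_sq {s : ℝ} (hs : 0 < s) (hs1 : s < 1) :
    IntegrableOn (fun x => ell x / (s + x) ^ 2) (Ioi 0) ∧
    ∫ x in Ioi (0 : ℝ), ell x / (s + x) ^ 2 = -Real.log s / (s * (1 - s)) := by
  have h1s : 0 < 1 - s := by linarith
  have hint : IntegrableOn (fun x => ell x / (s + x) ^ 2) (Ioi 0) := by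
    apply Integrable.mono' ((integrableOn_ell_div hs).const_mul (1 / s))
    · apply Measurable.aestronglyMeasurable
      exact measurable_ell.div (by fun_prop)
    · rw [ae_restrict_iff' measurableSet_Ioi]
      refine Eventually.of_forall fun x hx => ?_
      have hx0 : (0 : ℝ) < x := hx
      have h0 := ell_nonneg hx0
      rw [Real.norm_eq_abs, abs_of_nonneg (by positivity)]
      have e : 1 / s * (ell x / (s + x)) = ell x / (s * (s + x)) := by field_simp
      rw [e]
      apply div_le_div_of_nonneg_left h0 (by positivity)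
      rw [sq]
      gcongr
      linarith
  refine ⟨hint, ?_⟩
  set G : ℝ → ℝ := fun x => (x * ell x) * (1 / (s * (s + x)))
    + (1 / (s * (1 - s))) * Real.log ((s + x) / (1 + x)) with hG
  have hd : ∀ x ∈ Ioi (0 : ℝ), HasDerivAt G (ell x / (s + x) ^ 2) x := by
    intro x hx
    have hx0 : (0 : ℝ) < x := hx
    have hsx : s + x ≠ 0 := by positivity
    have h1x : 1 + x ≠ 0 := by positivity
    have d1 : HasDerivAt (fun x => x * ell x) (ell x - 1 / (1 + x)) x := by
      have := (hasDerivAt_id x).fun_mul (hasDerivAt_ell hx0)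
      refine this.congr_deriv ?_
      simp only [id]
      field_simp
      ring
    have d2 : HasDerivAt (fun x : ℝ => 1 / (s * (s + x))) (-(1 / (s * (s + x) ^ 2))) x := by
      have h := (((hasDerivAt_id x).const_add s).const_mul s).fun_inv
        (show s * (s + id x) ≠ 0 by simp only [id]; positivity)
      simp only [id] at h
      refine (h.congr_deriv ?_).congr_of_eventuallyEq ?_
      · field_simp
      · exact Eventually.of_forall fun y => by simp
    have d3 : HasDerivAt (fun x : ℝ => Real.log ((s + x) / (1 + x))) (1 / (s + x) - 1 / (1 + x)) x := by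
      have h := (((hasDerivAt_id x).const_add s).fun_div ((hasDerivAt_id x).const_add 1)
        (show (1 : ℝ) + id x ≠ 0 by simpa using h1x)).log
        (show (s + id x) / (1 + id x) ≠ 0 by simp only [id]; positivity)
      simp only [id] at h
      refine h.congr_deriv ?_
      field_simp
    have d := (d1.fun_mul d2).fun_add (d3.const_mul (1 / (s * (1 - s))))
    refine d.congr_deriv ?_
    field_simp
    ring
  have hcont : ContinuousWithinAt G (Ici 0) 0 := by
    rw [hG]
    apply ContinuousWithinAt.add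
    · apply ContinuousWithinAt.mul
      · have := tendsto_mul_ell_zero
        unfold ContinuousWithinAt
        simpa using this
      · apply ContinuousAt.continuousWithinAt
        apply ContinuousAt.div continuousAt_const (by fun_prop)
        simp only [add_zero]
        positivity
    · apply ContinuousAt.continuousWithinAt
      apply ContinuousAt.mul continuousAt_const
      apply ContinuousAt.log
      · apply ContinuousAt.div (by fun_prop) (by fun_prop)
        simp
      · simp only [add_zero, div_one]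
        exact hs.ne'
  have hlim : Tendsto G atTop (𝓝 0) := by
    have h1 : Tendsto (fun x => (x * ell x) * (1 / (s * (s + x)))) atTop (𝓝 0) := by
      have h2 : Tendsto (fun x : ℝ => 1 / s * (1 / (s + x))) atTop (𝓝 0) := by
        simpa using (tendsto_inv_shift s).const_mul (1 / s)
      refine tendsto_of_tendsto_of_tendsto_of_le_of_le' tendsto_const_nhds h2 ?_ ?_
      · filter_upwards [eventually_gt_atTop 0] with t ht
        have := ell_nonneg ht
        positivity
      · filter_upwards [eventually_gt_atTop 0] with t ht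
        have h3 := ell_le_inv ht
        have h4 : t * ell t ≤ 1 := by
          calc t * ell t ≤ t * (1 / t) := by gcongr
            _ = 1 := by field_simp
        calc (t * ell t) * (1 / (s * (s + t))) ≤ 1 * (1 / (s * (s + t))) := by gcongr
          _ = _ := by field_simp
    have h2 : Tendsto (fun x : ℝ => (1 / (s * (1 - s))) * Real.log ((s + x) / (1 + x))) atTop (𝓝 0) := by
      have h3 : Tendsto (fun x : ℝ => (s + x) / (1 + x)) atTop (𝓝 1) := by
        have h4 : Tendsto (fun x : ℝ => 1 + (s - 1) * (1 / (1 + x))) atTop (𝓝 (1 + (s - 1) * 0)) :=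
          ((tendsto_inv_shift 1).const_mul _).const_add _
        rw [mul_zero, add_zero] at h4
        refine h4.congr' ?_
        filter_upwards [eventually_gt_atTop 0] with x hx
        have : 1 + x ≠ 0 := by positivity
        field_simp
        ring
      have h4 := (Real.continuousAt_log one_ne_zero).tendsto.comp h3
      rw [Real.log_one] at h4
      simpa using h4.const_mul (1 / (s * (1 - s)))
    have h3 := h1.add h2
    rw [add_zero] at h3
    exact h3
  rw [integral_Ioi_of_hasDerivAt_of_tendsto hcont hd hint hlim]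
  simp only [hG, zero_mul, add_zero, div_one, zero_add]
  field_simp
  ring

theorem hasDerivAt_Aint {s : ℝ} (hs : 0 < s) (hs1 : s < 1) :
    HasDerivAt Aint (Real.log s / (s * (1 - s))) s := by
  have h := hasDerivAt_integral_of_dominated_loc_of_deriv_le
    (μ := volume.restrict (Ioi (0 : ℝ))) (x₀ := s) (s := Ioi (s / 2))
    (F := fun y x => ell x / (y + x)) (F' := fun y x => -(ell x / (y + x) ^ 2))
    (bound := fun x => ell x / (s / 2 + x) ^ 2)
    (Ioi_mem_nhds (by linarith)) ?_ (integrableOn_ell_div hs) ?_ ?_ ?_ ?_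
  · have h2 := h.2
    refine h2.congr_deriv ?_
    rw [integral_neg, (integral_ell_div_sq hs hs1).2]
    ring
  · refine Eventually.of_forall fun y => ?_
    apply Measurable.aestronglyMeasurable
    exact measurable_ell.div (by fun_prop)
  · apply Measurable.aestronglyMeasurable
    exact (measurable_ell.div (by fun_prop)).neg
  · rw [ae_restrict_iff' measurableSet_Ioi]
    refine Eventually.of_forall fun x hx y hy => ?_
    have hx0 : (0 : ℝ) < x := hx
    have hy0 : s / 2 < y := hy
    have h0 := ell_nonneg hx0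
    have hy1 : 0 < y := by linarith
    rw [Real.norm_eq_abs, abs_neg, abs_of_nonneg (by positivity)]
    apply div_le_div_of_nonneg_left h0 (by positivity)
    gcongr
  · exact (integral_ell_div_sq (by positivity) (by linarith)).1
  · rw [ae_restrict_iff' measurableSet_Ioi]
    refine Eventually.of_forall fun x hx y hy => ?_
    have hx0 : (0 : ℝ) < x := hx
    have hy0 : s / 2 < y := hy
    have hy1 : 0 < y := by linarith
    have hyx : y + x ≠ 0 := by positivity
    have h := (((hasDerivAt_id y).add_const x).fun_inv (by simpa using hyx)).const_mul (ell x)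
    simp only [id] at h
    refine (h.congr_deriv ?_).congr_of_eventuallyEq ?_
    · field_simp
    · exact Eventually.of_forall fun z => by simp [div_eq_mul_inv]

/-- `λ(s) = log (s/(1-s))` -/
noncomputable def lam (s : ℝ) : ℝ := Real.log s - Real.log (1 - s)

theorem hasDerivAt_lam {s : ℝ} (hs : 0 < s) (hs1 : s < 1) :
    HasDerivAt lam (1 / s + 1 / (1 - s)) s := by
  have h1s : (1 - s) ≠ 0 := by linarith
  have h1 := Real.hasDerivAt_log hs.ne'
  have h2 := ((hasDerivAt_id s).const_sub 1).log (by simpa using h1s)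
  simp only [id] at h2
  have h := h1.fun_sub h2
  refine h.congr_deriv ?_
  field_simp
  ring

theorem Aint_add {s : ℝ} (hs : 0 < s) (hs1 : s < 1) :
    Aint s + Aint (1 - s) = lam s ^ 2 / 2 + π ^ 2 / 2 := by
  set D : ℝ → ℝ := fun s => Aint s + Aint (1 - s) - lam s ^ 2 / 2 with hD
  have hd : ∀ x ∈ Ioo (0 : ℝ) 1, HasDerivAt D 0 x := by
    intro x hx
    have hx0 := hx.1
    have hx1 := hx.2
    have d1 := hasDerivAt_Aint hx0 hx1
    have d2 : HasDerivAt (fun x => Aint (1 - x)) (-(Real.log (1 - x) / ((1 - x) * x))) x := by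
      have h := (hasDerivAt_Aint (s := 1 - x) (by linarith) (by linarith)).comp x
        ((hasDerivAt_id x).const_sub 1)
      have e : (1 : ℝ) - (1 - x) = x := by ring
      rw [e] at h
      refine h.congr_deriv ?_
      ring
    have d3 := ((hasDerivAt_lam hx0 hx1).fun_pow 2).div_const 2
    have d := (d1.fun_add d2).fun_sub d3
    refine d.congr_deriv ?_
    have h1x : (1 - x) ≠ 0 := by linarith
    unfold lam
    push_cast
    field_simp
    ring
  have hconst : D s = D (1 / 2) := by
    have hconv : Convex ℝ (Ioo (0 : ℝ) 1) := convex_Ioo 0 1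
    have hdiff : DifferentiableOn ℝ D (Ioo 0 1) := fun x hx => (hd x hx).differentiableAt.differentiableWithinAt
    exact hconv.is_const_of_fderivWithin_eq_zero (𝕜 := ℝ) hdiff (fun x hx => by
      have h1 : HasFDerivWithinAt D (0 : ℝ →L[ℝ] ℝ) (Ioo 0 1) x := by
        have h2 := (hd x hx).hasFDerivAt.hasFDerivWithinAt (s := Ioo (0 : ℝ) 1)
        simpa using h2
      exact h1.fderivWithin (isOpen_Ioo.uniqueDiffWithinAt hx)) ⟨hs, hs1⟩ ⟨by norm_num, by norm_num⟩
  have hhalf : D (1 / 2) = π ^ 2 / 2 := by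
    simp only [hD]
    have e : (1 : ℝ) - 1 / 2 = 1 / 2 := by norm_num
    have e2 : lam (1 / 2) = 0 := by unfold lam; rw [e]; ring
    rw [e, e2]
    unfold Aint
    rw [integral_ell_div_half]
    ring
  rw [hhalf] at hconst
  simp only [hD] at hconst
  linarith

/-- the kernel -/
noncomputable def K (s t : ℝ) : ℝ :=
  (∫ x in Ioi (0 : ℝ), 1 / ((s + x) * (t + x))) + ∫ x in Ioi (0 : ℝ), 1 / ((1 - s + x) * (1 - t + x))

theorem K_ne {s t : ℝ} (hs : 0 < s) (hs1 : s < 1) (ht : 0 < t) (ht1 : t < 1) (hst : s ≠ t) :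
    K s t = (lam s - lam t) / (s - t) := by
  unfold K
  rw [integral_inv_mul_ne hs ht hst, integral_inv_mul_ne (by linarith) (by linarith)
    (by intro h; apply hst; linarith)]
  unfold lam
  have h1 : s - t ≠ 0 := sub_ne_zero.mpr hst
  have h2 : (1 - s) - (1 - t) ≠ 0 := by
    intro h; apply h1; linarith
  field_simp
  ring

theorem K_self {s : ℝ} (hs : 0 < s) (hs1 : s < 1) : K s s = 1 / s + 1 / (1 - s) := by
  unfold K
  rw [integral_inv_mul_self hs, integral_inv_mul_self (by linarith)]

/-- **Key inequality.** -/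
theorem key_ineq {ι : Type*} (I : Finset ι) (w m : ι → ℝ)
    (hm : ∀ i ∈ I, 0 < m i ∧ m i < 1) :
    π ^ 2 / 3 * (∑ i ∈ I, w i) ^ 2 + (∑ i ∈ I, w i) * (∑ i ∈ I, w i * lam (m i) ^ 2)
      ≤ ∑ i ∈ I, ∑ j ∈ I, w i * w j * K (m i) (m j) := by
  set W := ∑ i ∈ I, w i with hW
  set F : ℝ → ℝ := fun x => ∑ i ∈ I, w i * (1 / (m i + x)) with hF
  set F2 : ℝ → ℝ := fun x => ∑ i ∈ I, w i * (1 / (1 - m i + x)) with hF2
  have hsq : ∀ (n : ι → ℝ), (∀ i ∈ I, 0 < n i) →
      IntegrableOn (fun x => (∑ i ∈ I, w i * (1 / (n i + x))) ^ 2) (Ioi 0) ∧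
      ∫ x in Ioi (0 : ℝ), (∑ i ∈ I, w i * (1 / (n i + x))) ^ 2
        = ∑ i ∈ I, ∑ j ∈ I, w i * w j * ∫ x in Ioi (0 : ℝ), 1 / ((n i + x) * (n j + x)) := by
    intro n hn
    have e : ∀ x, (∑ i ∈ I, w i * (1 / (n i + x))) ^ 2
        = ∑ i ∈ I, ∑ j ∈ I, w i * w j * (1 / ((n i + x) * (n j + x))) := by
      intro x
      rw [sq, Finset.sum_mul_sum]
      apply Finset.sum_congr rfl
      intro i _
      apply Finset.sum_congr rfl
      intro j _
      have : w i * (1 / (n i + x)) * (w j * (1 / (n j + x)))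
          = w i * w j * (1 / (n i + x) * (1 / (n j + x))) := by ring
      rw [this, one_div_mul_one_div]
    have hi : ∀ i ∈ I, ∀ j ∈ I, Integrable (fun x => w i * w j * (1 / ((n i + x) * (n j + x))))
        (volume.restrict (Ioi (0 : ℝ))) := fun i hi j hj =>
      (integrableOn_inv_mul (hn i hi) (hn j hj)).const_mul _
    constructor
    · unfold IntegrableOn
      simp only [e]
      exact integrable_finsetSum _ fun i hi' => integrable_finsetSum _ fun j hj => hi i hi' j hj
    · simp only [e]
      rw [integral_finsetSum _ (fun i hi' => integrable_finsetSum _ fun j hj => hi i hi' j hj)]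
      apply Finset.sum_congr rfl
      intro i hi'
      rw [integral_finsetSum _ (fun j hj => hi i hi' j hj)]
      apply Finset.sum_congr rfl
      intro j _
      rw [integral_const_mul]
  have hcr : ∀ (n : ι → ℝ), (∀ i ∈ I, 0 < n i) →
      IntegrableOn (fun x => (∑ i ∈ I, w i * (1 / (n i + x))) * ell x) (Ioi 0) ∧
      ∫ x in Ioi (0 : ℝ), (∑ i ∈ I, w i * (1 / (n i + x))) * ell x
        = ∑ i ∈ I, w i * Aint (n i) := by
    intro n hn
    have e : ∀ x, (∑ i ∈ I, w i * (1 / (n i + x))) * ell x = ∑ i ∈ I, w i * (ell x / (n i + x)) := by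
      intro x
      rw [Finset.sum_mul]
      apply Finset.sum_congr rfl
      intro i _
      ring
    have hi : ∀ i ∈ I, Integrable (fun x => w i * (ell x / (n i + x)))
        (volume.restrict (Ioi (0 : ℝ))) := fun i hi => (integrableOn_ell_div (hn i hi)).const_mul _
    constructor
    · unfold IntegrableOn
      simp only [e]
      exact integrable_finsetSum _ hi
    · simp only [e]
      rw [integral_finsetSum _ hi]
      apply Finset.sum_congr rfl
      intro i _
      rw [integral_const_mul]
      rfl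
  have h1 := hsq m (fun i hi => (hm i hi).1)
  have h2 := hsq (fun i => 1 - m i) (fun i hi => by linarith [(hm i hi).2])
  have h3 := hcr m (fun i hi => (hm i hi).1)
  have h4 := hcr (fun i => 1 - m i) (fun i hi => by linarith [(hm i hi).2])
  have hpos1 : 0 ≤ ∫ x in Ioi (0 : ℝ), (F x - W * ell x) ^ 2 :=
    integral_nonneg fun x => sq_nonneg _
  have hpos2 : 0 ≤ ∫ x in Ioi (0 : ℝ), (F2 x - W * ell x) ^ 2 :=
    integral_nonneg fun x => sq_nonneg _
  have hexp : ∀ (f : ℝ → ℝ), IntegrableOn (fun x => f x ^ 2) (Ioi 0) →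
      IntegrableOn (fun x => f x * ell x) (Ioi 0) →
      ∫ x in Ioi (0 : ℝ), (f x - W * ell x) ^ 2
        = (∫ x in Ioi (0 : ℝ), f x ^ 2) - 2 * W * (∫ x in Ioi (0 : ℝ), f x * ell x)
          + W ^ 2 * (π ^ 2 / 3) := by
    intro f hf1 hf2
    have e : ∀ x, (f x - W * ell x) ^ 2 = (f x ^ 2 - 2 * W * (f x * ell x)) + W ^ 2 * ell x ^ 2 := by
      intro x; ring
    simp only [e]
    have hf3 : IntegrableOn (fun x => 2 * W * (f x * ell x)) (Ioi 0) := hf2.const_mul _
    have hf4 : IntegrableOn (fun x => W ^ 2 * ell x ^ 2) (Ioi 0) := integrableOn_ell_sq.const_mul _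
    have hf5 : IntegrableOn (fun x => f x ^ 2 - 2 * W * (f x * ell x)) (Ioi 0) := hf1.sub hf3
    rw [integral_add hf5 hf4, integral_sub hf1 hf3, integral_const_mul, integral_const_mul,
      integral_ell_sq]
  rw [hexp F h1.1 h3.1] at hpos1
  rw [hexp F2 h2.1 h4.1] at hpos2
  rw [hF, h1.2, h3.2] at hpos1
  rw [hF2, h2.2, h4.2] at hpos2
  have hK : ∑ i ∈ I, ∑ j ∈ I, w i * w j * K (m i) (m j)
      = (∑ i ∈ I, ∑ j ∈ I, w i * w j * ∫ x in Ioi (0 : ℝ), 1 / ((m i + x) * (m j + x)))
        + ∑ i ∈ I, ∑ j ∈ I, w i * w j * ∫ x in Ioi (0 : ℝ), 1 / ((1 - m i + x) * (1 - m j + x)) := by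
    rw [← Finset.sum_add_distrib]
    apply Finset.sum_congr rfl
    intro i _
    rw [← Finset.sum_add_distrib]
    apply Finset.sum_congr rfl
    intro j _
    unfold K
    ring
  have hA : (∑ i ∈ I, w i * Aint (m i)) + ∑ i ∈ I, w i * Aint (1 - m i)
      = (∑ i ∈ I, w i * lam (m i) ^ 2) / 2 + W * (π ^ 2 / 2) := by
    rw [← Finset.sum_add_distrib, Finset.sum_div, hW, Finset.sum_mul, ← Finset.sum_add_distrib]
    apply Finset.sum_congr rfl
    intro i hi
    have := Aint_add (hm i hi).1 (hm i hi).2
    calc w i * Aint (m i) + w i * Aint (1 - m i) = w i * (Aint (m i) + Aint (1 - m i)) := by ring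
      _ = _ := by rw [this]; ring
  rw [hK]
  have hA2 : 2 * W * ((∑ i ∈ I, w i * Aint (m i)) + ∑ i ∈ I, w i * Aint (1 - m i))
      = 2 * W * ((∑ i ∈ I, w i * lam (m i) ^ 2) / 2 + W * (π ^ 2 / 2)) := by rw [hA]
  nlinarith [hpos1, hpos2, hA2]

end Pool.Agent.LiebG
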