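import Mathlib
import Pool.Agent.LiebG.KeyIneq
import Pool.Agent.LiebT.PolyApprox

open Real Finset

set_option autoImplicit false

namespace Pool.Agent.LiebG

/-- divided difference of a polynomial -/
noncomputable def dd (p : Polynomial ℝ) (s t : ℝ) : ℝ :=
  ∑ l ∈ range (p.natDegree + 1), p.coeff l * ∑ a ∈ range l, s ^ a * t ^ (l - 1 - a)

theorem dd_mul (p : Polynomial ℝ) (s t : ℝ) : dd p s t * (s - t) = p.eval s - p.eval t := by
  unfold dd
  rw [Polynomial.eval_eq_sum_range, Polynomial.eval_eq_sum_range, ← Finset.sum_sub_distrib,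
    Finset.sum_mul]
  apply Finset.sum_congr rfl
  intro l _
  have := (Commute.all s t).geom_sum₂_mul l
  rw [← mul_sub, ← this]
  ring

theorem dd_self (p : Polynomial ℝ) (s : ℝ) : dd p s s = p.derivative.eval s := by
  unfold dd
  rw [Polynomial.derivative_eval, Polynomial.sum_over_range _ (by simp)]
  apply Finset.sum_congr rfl
  intro l _
  have h : ∑ a ∈ range l, s ^ a * s ^ (l - 1 - a) = l * s ^ (l - 1) := by
    have : ∀ a ∈ range l, s ^ a * s ^ (l - 1 - a) = s ^ (l - 1) := by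
      intro a ha
      rw [Finset.mem_range] at ha
      rw [← pow_add]
      congr 1
      omega
    rw [Finset.sum_congr rfl this, Finset.sum_const, Finset.card_range, nsmul_eq_mul]
  rw [h]
  ring

theorem exists_poly_lam {ε δ : ℝ} (hε : 0 < ε) (hε2 : ε < 1 / 2) (hδ : 0 < δ) :
    ∃ p : Polynomial ℝ, (∀ x ∈ Set.Icc ε (1 - ε), |p.eval x - lam x| ≤ δ) ∧
      (∀ x ∈ Set.Icc ε (1 - ε), ∀ y ∈ Set.Icc ε (1 - ε), |dd p x y - K x y| ≤ δ) := by
  have hcont : ContinuousOn (fun x : ℝ => 1 / x + 1 / (1 - x)) (Set.Icc ε (1 - ε)) := by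
    apply ContinuousOn.add
    · apply ContinuousOn.div continuousOn_const continuousOn_id
      intro x hx
      have := hx.1
      simp only [id]
      linarith
    · apply ContinuousOn.div continuousOn_const (by fun_prop)
      intro x hx
      have := hx.2
      have h2 : 0 < 1 - x := by linarith
      exact h2.ne'
  obtain ⟨q, hq⟩ := exists_polynomial_near_of_continuousOn ε (1 - ε) _ hcont δ hδ
  obtain ⟨p0, hp0⟩ := LiebT.exists_derivative_eq q
  set p : Polynomial ℝ := p0 + Polynomial.C (lam (1 / 2) - p0.eval (1 / 2)) with hp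
  have hpd : Polynomial.derivative p = q := by rw [hp]; simp [hp0]
  have hp1 : p.eval (1 / 2) = lam (1 / 2) := by rw [hp]; simp
  have hlip : ∀ x ∈ Set.Icc ε (1 - ε), ∀ y ∈ Set.Icc ε (1 - ε),
        |(p.eval x - lam x) - (p.eval y - lam y)| ≤ δ * |x - y| := by
    intro x hx y hy
    have hder : ∀ z ∈ Set.Icc ε (1 - ε), HasDerivWithinAt (fun z => p.eval z - lam z)
        (q.eval z - (1 / z + 1 / (1 - z))) (Set.Icc ε (1 - ε)) z := by
      intro z hz
      have h1 : HasDerivAt (fun z => p.eval z) (q.eval z) z := by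
        rw [← hpd]; exact p.hasDerivAt z
      exact (h1.sub (hasDerivAt_lam (lt_of_lt_of_le hε hz.1) (by linarith [hz.2]))).hasDerivWithinAt
    have := Convex.norm_image_sub_le_of_norm_hasDerivWithin_le (C := δ) hder
      (fun z hz => (hq z hz).le) (convex_Icc _ _) hy hx
    simpa [Real.norm_eq_abs] using this
  refine ⟨p, ?_, ?_⟩
  · intro x hx
    have h := hlip x hx (1 / 2) ⟨hε2.le, by linarith⟩
    rw [hp1, sub_self, sub_zero] at h
    have hx1 : |x - 1 / 2| ≤ 1 := by
      rw [abs_le]; constructor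
      · linarith [hx.1]
      · linarith [hx.2]
    nlinarith [abs_nonneg (x - 1 / 2)]
  · intro x hx y hy
    have hx0 : 0 < x := lt_of_lt_of_le hε hx.1
    have hx1 : x < 1 := by linarith [hx.2]
    have hy0 : 0 < y := lt_of_lt_of_le hε hy.1
    have hy1 : y < 1 := by linarith [hy.2]
    by_cases hxy : x = y
    · subst hxy
      rw [dd_self, hpd, K_self hx0 hx1]
      exact (hq x hx).le
    · rw [K_ne hx0 hx1 hy0 hy1 hxy]
      have hne : x - y ≠ 0 := sub_ne_zero.mpr hxy
      have h1 : dd p x y = (p.eval x - p.eval y) / (x - y) := by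
        rw [← dd_mul, mul_div_cancel_right₀ _ hne]
      have h2 : (p.eval x - p.eval y) / (x - y) - (lam x - lam y) / (x - y)
          = ((p.eval x - lam x) - (p.eval y - lam y)) / (x - y) := by
        field_simp
        ring
      rw [h1, h2, abs_div, div_le_iff₀ (abs_pos.mpr hne)]
      exact hlip x hx y hy

/-- approximate key inequality for a polynomial -/
theorem exists_poly_key {ε η : ℝ} (hε : 0 < ε) (hε2 : ε < 1 / 2) (hη : 0 < η) :
    ∃ p : Polynomial ℝ, ∀ (n : ℕ) (w m : Fin n → ℝ), (∀ i, 0 ≤ w i) →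
      (∀ i, m i ∈ Set.Icc ε (1 - ε)) →
      (π ^ 2 / 3 - η) * (∑ i, w i) ^ 2 + (∑ i, w i) * (∑ i, w i * p.eval (m i) ^ 2)
        ≤ ∑ i, ∑ j, w i * w j * dd p (m i) (m j) := by
  have hcont : ContinuousOn lam (Set.Icc ε (1 - ε)) := by
    intro x hx
    exact (hasDerivAt_lam (lt_of_lt_of_le hε hx.1)
      (by linarith [hx.2])).continuousAt.continuousWithinAt
  obtain ⟨B, hB⟩ := isCompact_Icc.exists_bound_of_continuousOn hcont
  have hB0 : 0 ≤ B := le_trans (norm_nonneg _) (hB ε ⟨le_rfl, by linarith⟩)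
  set δ : ℝ := min 1 (η / (2 * B + 2)) with hδ
  have hδ0 : 0 < δ := lt_min one_pos (by positivity)
  have hδ1 : δ ≤ 1 := min_le_left _ _
  have hδ2 : δ * (2 * B + 2) ≤ η := by
    have : δ ≤ η / (2 * B + 2) := min_le_right _ _
    rwa [le_div_iff₀ (by positivity)] at this
  obtain ⟨p, hp1, hp2⟩ := exists_poly_lam hε hε2 hδ0
  refine ⟨p, ?_⟩
  intro n w m hw hm
  have hkey := key_ineq Finset.univ w m (fun i _ => ⟨lt_of_lt_of_le hε (hm i).1,
    by linarith [(hm i).2]⟩)
  have hW : 0 ≤ ∑ i, w i := Finset.sum_nonneg fun i _ => hw i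
  have h1 : ∑ i, w i * p.eval (m i) ^ 2 ≤ ∑ i, w i * lam (m i) ^ 2 + δ * (2 * B + 1) * ∑ i, w i := by
    rw [Finset.mul_sum, ← Finset.sum_add_distrib]
    apply Finset.sum_le_sum
    intro i _
    have e1 := abs_le.mp (hp1 (m i) (hm i))
    have e2 := hB (m i) (hm i)
    rw [Real.norm_eq_abs] at e2
    have e2' := abs_le.mp e2
    have e3 : p.eval (m i) ^ 2 ≤ lam (m i) ^ 2 + δ * (2 * B + 1) := by
      have e4 : p.eval (m i) ^ 2 = lam (m i) ^ 2 + 2 * lam (m i) * (p.eval (m i) - lam (m i))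
        + (p.eval (m i) - lam (m i)) ^ 2 := by ring
      have e5 : 2 * lam (m i) * (p.eval (m i) - lam (m i)) ≤ 2 * B * δ := by
        have : |lam (m i) * (p.eval (m i) - lam (m i))| ≤ B * δ := by
          rw [abs_mul]
          exact mul_le_mul e2 (hp1 (m i) (hm i)) (abs_nonneg _) hB0
        have := (abs_le.mp this).2
        linarith
      have e6 : (p.eval (m i) - lam (m i)) ^ 2 ≤ δ := by
        have : (p.eval (m i) - lam (m i)) ^ 2 ≤ δ ^ 2 := by
          rw [← sq_abs]
          exact pow_le_pow_left₀ (abs_nonneg _) (hp1 (m i) (hm i)) 2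
        nlinarith
      rw [e4]
      linarith
    calc w i * p.eval (m i) ^ 2 ≤ w i * (lam (m i) ^ 2 + δ * (2 * B + 1)) :=
          mul_le_mul_of_nonneg_left e3 (hw i)
      _ = _ := by ring
  have h2 : ∑ i, ∑ j, w i * w j * K (m i) (m j)
      ≤ ∑ i, ∑ j, w i * w j * dd p (m i) (m j) + δ * (∑ i, w i) ^ 2 := by
    have e : δ * (∑ i, w i) ^ 2 = ∑ i, ∑ j, w i * w j * δ := by
      rw [sq, Finset.sum_mul_sum, Finset.mul_sum]
      apply Finset.sum_congr rfl
      intro i _
      rw [Finset.mul_sum]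
      apply Finset.sum_congr rfl
      intro j _
      ring
    rw [e, ← Finset.sum_add_distrib]
    apply Finset.sum_le_sum
    intro i _
    rw [← Finset.sum_add_distrib]
    apply Finset.sum_le_sum
    intro j _
    have e1 := (abs_le.mp (hp2 (m i) (hm i) (m j) (hm j))).1
    have e2 : 0 ≤ w i * w j := mul_nonneg (hw i) (hw j)
    nlinarith
  have h3 : (∑ i, w i) * (∑ i, w i * p.eval (m i) ^ 2)
      ≤ (∑ i, w i) * (∑ i, w i * lam (m i) ^ 2 + δ * (2 * B + 1) * ∑ i, w i) :=
    mul_le_mul_of_nonneg_left h1 hW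
  have h4 : δ * (2 * B + 1) * (∑ i, w i) ^ 2 + δ * (∑ i, w i) ^ 2 ≤ η * (∑ i, w i) ^ 2 := by
    have : (δ * (2 * B + 2)) * (∑ i, w i) ^ 2 ≤ η * (∑ i, w i) ^ 2 :=
      mul_le_mul_of_nonneg_right hδ2 (sq_nonneg _)
    linarith
  nlinarith [hkey, h2, h3, h4]

end Pool.Agent.LiebG
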