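import Mathlib
import Pool.Agent.LiebG.Approx
import Pool.Agent.LiebT.Line

open Real Finset

set_option autoImplicit false

namespace Pool.Agent.LiebG

open Pool.Agent.LiebT (mu dmu spectral hasDerivAt_mu vl hasDerivAt_vl)

variable {H : Type*} [NormedAddCommGroup H] [InnerProductSpace ℂ H] [FiniteDimensional ℂ H]

theorem pointwise {T : H →ₗ[ℂ] H} (hT : T.IsSymmetric) {ε η : ℝ} (p : Polynomial ℝ)
    (hlo : ∀ v : H, ε * ‖v‖ ^ 2 ≤ (inner ℂ v (T v)).re)
    (hhi : ∀ v : H, (inner ℂ v (T v)).re ≤ (1 - ε) * ‖v‖ ^ 2)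
    (hk : ∀ (n : ℕ) (w m : Fin n → ℝ), (∀ i, 0 ≤ w i) →
      (∀ i, m i ∈ Set.Icc ε (1 - ε)) →
      (π ^ 2 / 3 - η) * (∑ i, w i) ^ 2 + (∑ i, w i) * (∑ i, w i * p.eval (m i) ^ 2)
        ≤ ∑ i, ∑ j, w i * w j * dd p (m i) (m j)) (u u' : H) :
    -(dmu T u u' 0 * ∑ l ∈ range (p.natDegree + 1), p.coeff l * mu T u l
        + mu T u 0 * ∑ l ∈ range (p.natDegree + 1), p.coeff l * dmu T u u' l)
      ≤ ‖u'‖ ^ 2 + 3 * ((inner ℂ u u').re ^ 2 / ‖u‖ ^ 2) - (π ^ 2 / 3 - η) * ‖u‖ ^ 6 := by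
  obtain ⟨n, m, w, hw, hm, hmu, hnorm⟩ := spectral hT hlo hhi u
  set D := p.natDegree + 1 with hD
  have hmu' : ∀ l, mu T u l = ∑ i, w i * m i ^ l := by
    intro l
    unfold mu
    rw [hmu l, Complex.ofReal_re]
  have hu2 : ‖u‖ ^ 2 = ∑ i, w i := by
    have h0 := hmu 0
    simp only [pow_zero, Module.End.one_apply, mul_one] at h0
    have h1 : (inner ℂ u u).re = ‖u‖ ^ 2 := inner_self_eq_norm_sq (𝕜 := ℂ) u
    rw [← h1, h0, Complex.ofReal_re]
  have hmu0 : mu T u 0 = ‖u‖ ^ 2 := by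
    rw [hmu' 0, hu2]
    simp
  set Z : H := ∑ l ∈ range D, ((p.coeff l : ℝ) : ℂ) • (T ^ l) u with hZ
  have hZ2 : ‖Z‖ ^ 2 = ∑ i, w i * p.eval (m i) ^ 2 := by
    rw [hZ, hnorm D (fun l => p.coeff l)]
    apply Finset.sum_congr rfl
    intro i _
    rw [Polynomial.eval_eq_sum_range]
  have hP : (inner ℂ u Z).re = ∑ l ∈ range D, p.coeff l * mu T u l := by
    rw [hZ, inner_sum, Complex.re_sum]
    apply Finset.sum_congr rfl
    intro l _
    rw [inner_smul_right, Complex.re_ofReal_mul]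
    rfl
  have hQ : (inner ℂ u' Z).re = ∑ l ∈ range D, p.coeff l * (inner ℂ u' ((T ^ l) u)).re := by
    rw [hZ, inner_sum, Complex.re_sum]
    apply Finset.sum_congr rfl
    intro l _
    rw [inner_smul_right, Complex.re_ofReal_mul]
  set r : ℝ := (inner ℂ u u').re with hr
  have hdmu0 : dmu T u u' 0 = 2 * r := by
    unfold dmu
    simp only [pow_zero, Module.End.one_apply, range_zero, sum_empty, add_zero]
    rw [hr, ← inner_conj_symm u u', Complex.conj_re]
  have hJ : ∑ l ∈ range D, p.coeff l * ∑ a ∈ range l, mu T u a * mu T u (l - 1 - a)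
      = ∑ i, ∑ j, w i * w j * dd p (m i) (m j) := by
    unfold dd
    rw [← hD]
    have e1 : ∀ l, p.coeff l * ∑ a ∈ range l, mu T u a * mu T u (l - 1 - a)
        = ∑ i, ∑ j, w i * w j * (p.coeff l * ∑ a ∈ range l, m i ^ a * m j ^ (l - 1 - a)) := by
      intro l
      simp only [hmu']
      have : ∑ a ∈ range l, (∑ i, w i * m i ^ a) * (∑ i, w i * m i ^ (l - 1 - a))
          = ∑ j, ∑ q, w j * w q * ∑ a ∈ range l, m j ^ a * m q ^ (l - 1 - a) := by
        have s0 : ∀ a ∈ range l, (∑ i, w i * m i ^ a) * (∑ i, w i * m i ^ (l - 1 - a))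
            = ∑ j, ∑ q, w j * w q * (m j ^ a * m q ^ (l - 1 - a)) := by
          intro a _
          rw [Finset.sum_mul_sum]
          apply Finset.sum_congr rfl
          intro j _
          apply Finset.sum_congr rfl
          intro q _
          ring
        rw [Finset.sum_congr rfl s0, Finset.sum_comm]
        apply Finset.sum_congr rfl
        intro j _
        rw [Finset.sum_comm]
        apply Finset.sum_congr rfl
        intro q _
        rw [Finset.mul_sum]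
      rw [this, Finset.mul_sum]
      apply Finset.sum_congr rfl
      intro i _
      rw [Finset.mul_sum]
      apply Finset.sum_congr rfl
      intro j _
      ring
    simp only [e1]
    rw [Finset.sum_comm]
    apply Finset.sum_congr rfl
    intro i _
    rw [Finset.sum_comm]
    apply Finset.sum_congr rfl
    intro j _
    rw [Finset.mul_sum]
  have hS' : ∑ l ∈ range D, p.coeff l * dmu T u u' l
      = 2 * (inner ℂ u' Z).re + ∑ i, ∑ j, w i * w j * dd p (m i) (m j) := by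
    rw [← hJ, hQ, Finset.mul_sum, ← Finset.sum_add_distrib]
    apply Finset.sum_congr rfl
    intro l _
    unfold dmu
    ring
  have hkk := hk n w m hw hm
  rw [← hu2, ← hZ2] at hkk
  rw [hS', ← hP, hmu0, hdmu0]
  set J := ∑ i, ∑ j, w i * w j * dd p (m i) (m j) with hJdef
  set P := (inner ℂ u Z).re with hPdef
  set A := ‖u‖ ^ 2 with hA
  have hA0 : 0 ≤ A := by positivity
  have h6 : ‖u‖ ^ 6 = A ^ 3 := by rw [hA]; ring
  rw [h6]
  -- main estimate
  have hmain : 0 ≤ ‖u'‖ ^ 2 + 3 * (r ^ 2 / A) + 2 * r * P + 2 * A * (inner ℂ u' Z).re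
      + A ^ 2 * ‖Z‖ ^ 2 := by
    set V : H := u' + (A : ℂ) • Z with hV
    have hV2 : ‖V‖ ^ 2 = ‖u'‖ ^ 2 + 2 * A * (inner ℂ u' Z).re + A ^ 2 * ‖Z‖ ^ 2 := by
      have h1 := norm_add_sq (𝕜 := ℂ) u' ((A : ℂ) • Z)
      rw [inner_smul_right, norm_smul, Complex.norm_real, Real.norm_eq_abs, abs_of_nonneg hA0] at h1
      change ‖u' + (A : ℂ) • Z‖ ^ 2 = ‖u'‖ ^ 2 + 2 * ((A : ℂ) * inner ℂ u' Z).re + (A * ‖Z‖) ^ 2 at h1
      rw [Complex.re_ofReal_mul] at h1
      rw [hV, h1]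
      ring
    have hcs : (r + A * P) ^ 2 ≤ A * ‖V‖ ^ 2 := by
      have h1 : (inner ℂ u V).re = r + A * P := by
        rw [hV, inner_add_right, inner_smul_right, Complex.add_re, Complex.re_ofReal_mul]
      rw [← h1]
      have h2 : |(inner ℂ u V).re| ≤ ‖u‖ * ‖V‖ :=
        (Complex.abs_re_le_norm _).trans (norm_inner_le_norm u V)
      calc (inner ℂ u V).re ^ 2 = |(inner ℂ u V).re| ^ 2 := (sq_abs _).symm
        _ ≤ (‖u‖ * ‖V‖) ^ 2 := pow_le_pow_left₀ (abs_nonneg _) h2 2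
        _ = A * ‖V‖ ^ 2 := by rw [hA]; ring
    have hgoal : ‖u'‖ ^ 2 + 3 * (r ^ 2 / A) + 2 * r * P + 2 * A * (inner ℂ u' Z).re
      + A ^ 2 * ‖Z‖ ^ 2 = ‖V‖ ^ 2 + 3 * (r ^ 2 / A) + 2 * r * P := by rw [hV2]; ring
    rw [hgoal]
    rcases hA0.eq_or_lt with h0 | h0
    · have hu0 : u = 0 := by
        rw [hA] at h0
        exact norm_eq_zero.mp (pow_eq_zero_iff (two_ne_zero) |>.mp h0.symm)
      have hr0 : r = 0 := by rw [hr, hu0]; simp
      rw [hr0]
      have : 0 ≤ ‖V‖ ^ 2 := by positivity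
      simpa using this
    · have h1 : 0 ≤ (‖V‖ ^ 2 + 3 * (r ^ 2 / A) + 2 * r * P) * A := by
        have e : (‖V‖ ^ 2 + 3 * (r ^ 2 / A) + 2 * r * P) * A
            = A * ‖V‖ ^ 2 + 3 * r ^ 2 + 2 * r * (A * P) := by
          field_simp
        rw [e]
        nlinarith [sq_nonneg (2 * r + A * P)]
      exact nonneg_of_mul_nonneg_left h1 h0
  have hAJ : (π ^ 2 / 3 - η) * A ^ 3 + A ^ 2 * ‖Z‖ ^ 2 ≤ A * J := by
    have := mul_le_mul_of_nonneg_left hkk hA0
    calc _ = A * ((π ^ 2 / 3 - η) * A ^ 2 + A * ‖Z‖ ^ 2) := by ring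
      _ ≤ A * J := this
  linarith [hmain, hAJ]

/-- the calibration -/
noncomputable def Phi (p : Polynomial ℝ) (M : ℝ → (H →L[ℂ] H)) (U : ℝ → H) (x : ℝ) : ℝ :=
  mu (M x : H →ₗ[ℂ] H) (U x) 0 * ∑ l ∈ range (p.natDegree + 1),
    p.coeff l * mu (M x : H →ₗ[ℂ] H) (U x) l

theorem hasDerivAt_Phi (p : Polynomial ℝ) {M : ℝ → (H →L[ℂ] H)} {U : ℝ → H} {U' : H} {x : ℝ}
    (hM : HasDerivAt M (InnerProductSpace.rankOne ℂ (U x) (U x)) x) (hU : HasDerivAt U U' x)
    (hsym : ((M x : H →ₗ[ℂ] H)).IsSymmetric) :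
    HasDerivAt (Phi p M U)
      (dmu (M x : H →ₗ[ℂ] H) (U x) U' 0 * ∑ l ∈ range (p.natDegree + 1),
          p.coeff l * mu (M x : H →ₗ[ℂ] H) (U x) l
        + mu (M x : H →ₗ[ℂ] H) (U x) 0 * ∑ l ∈ range (p.natDegree + 1),
          p.coeff l * dmu (M x : H →ₗ[ℂ] H) (U x) U' l) x := by
  unfold Phi
  apply HasDerivAt.fun_mul (hasDerivAt_mu hM hU hsym 0)
  apply HasDerivAt.fun_sum
  intro l _
  exact (hasDerivAt_mu hM hU hsym l).const_mul _

/-- the von Weizsaecker term is measurable and bounded by the kinetic energy density -/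
theorem weiz_le (u u' : H) : (inner ℂ u u').re ^ 2 / ‖u‖ ^ 2 ≤ ‖u'‖ ^ 2 := by
  by_cases h : ‖u‖ = 0
  · rw [h]
    simp
  · rw [div_le_iff₀ (by positivity)]
    have h2 : |(inner ℂ u u').re| ≤ ‖u‖ * ‖u'‖ :=
      (Complex.abs_re_le_norm _).trans (norm_inner_le_norm u u')
    calc (inner ℂ u u').re ^ 2 = |(inner ℂ u u').re| ^ 2 := (sq_abs _).symm
      _ ≤ (‖u‖ * ‖u'‖) ^ 2 := pow_le_pow_left₀ (abs_nonneg _) h2 2
      _ = _ := by ring

theorem intervalIntegrable_weiz {a b : ℝ} (hab : a ≤ b) {U U' : ℝ → H} (hU : Continuous U)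
    (hU' : Continuous U') :
    IntervalIntegrable (fun x => (inner ℂ (U x) (U' x)).re ^ 2 / ‖U x‖ ^ 2)
      MeasureTheory.volume a b := by
  rw [intervalIntegrable_iff_integrableOn_Ioc_of_le hab]
  have h1 : MeasureTheory.IntegrableOn (fun x => ‖U' x‖ ^ 2) (Set.Ioc a b) := by
    rw [← intervalIntegrable_iff_integrableOn_Ioc_of_le hab]
    apply Continuous.intervalIntegrable
    fun_prop
  apply MeasureTheory.Integrable.mono' h1
  · apply Measurable.aestronglyMeasurable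
    apply Measurable.div
    · apply Continuous.measurable
      fun_prop
    · apply Continuous.measurable
      fun_prop
  · refine Filter.Eventually.of_forall fun x => ?_
    rw [Real.norm_eq_abs, abs_of_nonneg (by positivity)]
    exact weiz_le (U x) (U' x)

theorem core {a b ε : ℝ} (hab : a ≤ b) (hε : 0 < ε) (hε2 : ε < 1 / 2) {U U' : ℝ → H}
    {M : ℝ → (H →L[ℂ] H)} (hU : ∀ x, HasDerivAt U (U' x) x) (hU' : Continuous U')
    (hM : ∀ x, HasDerivAt M (InnerProductSpace.rankOne ℂ (U x) (U x)) x)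
    (hsym : ∀ x, ((M x : H →ₗ[ℂ] H)).IsSymmetric)
    (hlo : ∀ x ∈ Set.Icc a b, ∀ v : H, ε * ‖v‖ ^ 2 ≤ (inner ℂ v (M x v)).re)
    (hhi : ∀ x ∈ Set.Icc a b, ∀ v : H, (inner ℂ v (M x v)).re ≤ (1 - ε) * ‖v‖ ^ 2)
    (hUa : U a = 0) (hUb : U b = 0) :
    π ^ 2 / 3 * ∫ x in a..b, ‖U x‖ ^ 6 ≤ (∫ x in a..b, ‖U' x‖ ^ 2)
      + 3 * ∫ x in a..b, (inner ℂ (U x) (U' x)).re ^ 2 / ‖U x‖ ^ 2 := by
  have hUc : Continuous U := continuous_iff_continuousAt.mpr fun x => (hU x).continuousAt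
  have hvc : ∀ l, Continuous (vl M U l) := fun l =>
    continuous_iff_continuousAt.mpr fun x => (hasDerivAt_vl (hM x) (hU x) l).continuousAt
  have hmc : ∀ l, Continuous (fun x => mu (M x : H →ₗ[ℂ] H) (U x) l) := fun l =>
    continuous_iff_continuousAt.mpr fun x => (hasDerivAt_mu (hM x) (hU x) (hsym x) l).continuousAt
  have hdc : ∀ l, Continuous (fun x => dmu (M x : H →ₗ[ℂ] H) (U x) (U' x) l) := by
    intro l
    unfold dmu
    apply Continuous.add
    · apply Continuous.mul continuous_const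
      have : (fun x => (inner ℂ (U' x) (((M x : H →ₗ[ℂ] H) ^ l) (U x))).re)
          = fun x => (inner ℂ (U' x) (vl M U l x)).re := rfl
      rw [this]
      exact Complex.continuous_re.comp (hU'.inner (hvc l))
    · apply continuous_finsetSum
      intro a _
      exact (hmc a).mul (hmc _)
  set I6 := ∫ x in a..b, ‖U x‖ ^ 6 with hI6
  set I2 := ∫ x in a..b, ‖U' x‖ ^ 2 with hI2
  set W := ∫ x in a..b, (inner ℂ (U x) (U' x)).re ^ 2 / ‖U x‖ ^ 2 with hW
  have hI60 : 0 ≤ I6 := intervalIntegral.integral_nonneg hab fun x _ => by positivity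
  have hwint := intervalIntegrable_weiz hab hUc hU'
  have key : ∀ η : ℝ, 0 < η → (π ^ 2 / 3 - η) * I6 ≤ I2 + 3 * W := by
    intro η hη
    obtain ⟨p, hp⟩ := exists_poly_key hε hε2 hη
    set F' : ℝ → ℝ := fun x => dmu (M x : H →ₗ[ℂ] H) (U x) (U' x) 0 *
        ∑ l ∈ range (p.natDegree + 1), p.coeff l * mu (M x : H →ₗ[ℂ] H) (U x) l
        + mu (M x : H →ₗ[ℂ] H) (U x) 0 * ∑ l ∈ range (p.natDegree + 1),
          p.coeff l * dmu (M x : H →ₗ[ℂ] H) (U x) (U' x) l with hF'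
    have hF'c : Continuous F' := by
      rw [hF']
      apply Continuous.add
      · apply (hdc 0).mul
        apply continuous_finsetSum
        intro l _
        exact continuous_const.mul (hmc l)
      · apply (hmc 0).mul
        apply continuous_finsetSum
        intro l _
        exact continuous_const.mul (hdc l)
    have hint : ∫ x in a..b, F' x = 0 := by
      rw [intervalIntegral.integral_eq_sub_of_hasDerivAt
        (fun x _ => hasDerivAt_Phi p (hM x) (hU x) (hsym x)) (hF'c.intervalIntegrable a b)]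
      unfold Phi
      rw [hUa, hUb]
      simp [LiebT.mu_zero]
    have hi2 : IntervalIntegrable (fun x => ‖U' x‖ ^ 2) MeasureTheory.volume a b :=
      Continuous.intervalIntegrable (by fun_prop) _ _
    have hi6 : IntervalIntegrable (fun x => (π ^ 2 / 3 - η) * ‖U x‖ ^ 6)
      MeasureTheory.volume a b := Continuous.intervalIntegrable (by fun_prop) _ _
    have hle : ∫ x in a..b, -F' x ≤ ∫ x in a..b, (‖U' x‖ ^ 2
        + 3 * ((inner ℂ (U x) (U' x)).re ^ 2 / ‖U x‖ ^ 2) - (π ^ 2 / 3 - η) * ‖U x‖ ^ 6) := by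
      apply intervalIntegral.integral_mono_on hab (hF'c.neg.intervalIntegrable a b)
      · exact (hi2.add (hwint.const_mul 3)).sub hi6
      · intro x hx
        exact pointwise (hsym x) p (hlo x hx) (hhi x hx) hp (U x) (U' x)
    rw [intervalIntegral.integral_neg, hint,
      intervalIntegral.integral_sub (hi2.add (hwint.const_mul 3)) hi6,
      intervalIntegral.integral_add hi2 (hwint.const_mul 3),
      intervalIntegral.integral_const_mul, intervalIntegral.integral_const_mul] at hle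
    linarith
  by_contra hcon
  push Not at hcon
  by_cases h0 : I6 = 0
  · have := key 1 one_pos
    rw [h0] at this hcon
    linarith
  · have hpos : 0 < I6 := lt_of_le_of_ne hI60 (Ne.symm h0)
    have := key ((π ^ 2 / 3 * I6 - (I2 + 3 * W)) / (2 * I6)) (by
      apply div_pos (by linarith) (by linarith))
    have e : (π ^ 2 / 3 - (π ^ 2 / 3 * I6 - (I2 + 3 * W)) / (2 * I6)) * I6
      = π ^ 2 / 3 * I6 - (π ^ 2 / 3 * I6 - (I2 + 3 * W)) / 2 := by
      field_simp
    rw [e] at this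
    linarith

end Pool.Agent.LiebG
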