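import Mathlib
import Pool.Agent.LiebG.Core

open Real Finset MeasureTheory

set_option autoImplicit false

namespace Pool.Agent.LiebG

open Pool.Agent.LiebT (Mop hasDerivAt_Mop isSymmetric_Mop re_inner_Mop le_of_forall_eps)

theorem line {N : ℕ} (u : Fin N → ℝ → ℂ) (hu : ∀ n, ContDiff ℝ 1 (u n))
    (hc : ∀ n, HasCompactSupport (u n))
    (hsub : ∀ v : Fin N → ℂ, ∫ x, ‖∑ n, v n * u n x‖ ^ 2 ≤ ∑ n, ‖v n‖ ^ 2) :
    π ^ 2 / 3 * ∫ x, (∑ n, ‖u n x‖ ^ 2) ^ 3 ≤ (∫ x, ∑ n, ‖deriv (u n) x‖ ^ 2)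
      + 3 * ∫ x, (deriv (fun y => ∑ n, ‖u n y‖ ^ 2) x) ^ 2 / (4 * ∑ n, ‖u n x‖ ^ 2) := by
  classical
  -- common support
  obtain ⟨R, hR0, hR⟩ : ∃ R : ℝ, 0 < R ∧ ∀ n x, x ∉ Set.Ioo (-R) R → u n x = 0 ∧ deriv (u n) x = 0 := by
    have hK : IsCompact (⋃ n, tsupport (u n)) := isCompact_iUnion fun n => hc n
    obtain ⟨R, hR⟩ := hK.isBounded.subset_closedBall 0
    refine ⟨|R| + 1, by positivity, ?_⟩
    intro n x hx
    have hx' : x ∉ tsupport (u n) := by
      intro hmem
      have := hR (Set.mem_iUnion.mpr ⟨n, hmem⟩)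
      rw [mem_closedBall_zero_iff, Real.norm_eq_abs] at this
      apply hx
      have h2 : |x| < |R| + 1 := by linarith [le_abs_self R]
      exact abs_lt.mp h2
    constructor
    · exact image_eq_zero_of_notMem_tsupport hx'
    · have h3 : x ∉ tsupport (deriv (u n)) := fun hm => hx' (tsupport_deriv_subset hm)
      exact image_eq_zero_of_notMem_tsupport h3
  set U0 : ℝ → EuclideanSpace ℂ (Fin N) := fun x => WithLp.toLp 2 (fun n => u n x) with hU0
  set U0' : ℝ → EuclideanSpace ℂ (Fin N) := fun x => WithLp.toLp 2 (fun n => deriv (u n) x) with hU0'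
  have hd0 : ∀ x, HasDerivAt U0 (U0' x) x := by
    intro x
    have h1 : HasDerivAt (fun x => (fun n => u n x)) (fun n => deriv (u n) x) x := by
      rw [hasDerivAt_pi]
      intro n
      exact ((hu n).differentiable one_ne_zero x).hasDerivAt
    exact ((PiLp.continuousLinearEquiv 2 ℝ (fun _ : Fin N => ℂ)).symm.toContinuousLinearMap.hasFDerivAt
      ).comp_hasDerivAt x h1
  have hc0' : Continuous U0' := by
    apply (PiLp.continuousLinearEquiv 2 ℝ (fun _ : Fin N => ℂ)).symm.continuous.comp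
    exact continuous_pi fun n => (hu n).continuous_deriv le_rfl
  have hc0 : Continuous U0 := continuous_iff_continuousAt.mpr fun x => (hd0 x).continuousAt
  have hnorm0 : ∀ x, ‖U0 x‖ ^ 2 = ∑ n, ‖u n x‖ ^ 2 := by
    intro x
    rw [EuclideanSpace.norm_sq_eq]
  have hnorm0' : ∀ x, ‖U0' x‖ ^ 2 = ∑ n, ‖deriv (u n) x‖ ^ 2 := by
    intro x
    rw [EuclideanSpace.norm_sq_eq]
  have hderiv : ∀ x, deriv (fun y => ∑ n, ‖u n y‖ ^ 2) x = 2 * (inner ℂ (U0 x) (U0' x)).re := by
    intro x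
    have e : (fun y => ∑ n, ‖u n y‖ ^ 2) = fun y => Complex.reCLM (inner ℂ (U0 y) (U0 y)) := by
      funext y
      rw [← hnorm0 y]
      exact (inner_self_eq_norm_sq (𝕜 := ℂ) (U0 y)).symm
    rw [e]
    have h1 := (hd0 x).inner ℂ (hd0 x)
    have h2 := (Complex.reCLM.hasFDerivAt (x := inner ℂ (U0 x) (U0 x))).comp_hasDerivAt x h1
    have h3 := h2.deriv
    have e3 : (Complex.reCLM ∘ fun t => inner ℂ (U0 t) (U0 t))
        = fun y => Complex.reCLM (inner ℂ (U0 y) (U0 y)) := rfl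
    rw [e3] at h3
    rw [h3, Complex.reCLM_apply, Complex.add_re, ← inner_conj_symm (U0' x) (U0 x), Complex.conj_re]
    ring
  -- integrals over the interval
  have hout : ∀ x, x ∉ Set.Ioo (-R) R → U0 x = 0 := by
    intro x hx
    ext n
    simp [hU0, (hR n x hx).1]
  have hI6 : ∫ x, (∑ n, ‖u n x‖ ^ 2) ^ 3 = ∫ x in (-R)..R, ‖U0 x‖ ^ 6 := by
    rw [intervalIntegral.integral_eq_integral_of_support_subset]
    · congr 1
      funext x
      rw [← hnorm0]
      ring
    · intro x hx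
      by_contra hcon
      apply hx
      have : x ∉ Set.Ioo (-R) R := fun h => hcon (Set.Ioo_subset_Ioc_self h)
      simp [hout x this]
  have hI2 : ∫ x, ∑ n, ‖deriv (u n) x‖ ^ 2 = ∫ x in (-R)..R, ‖U0' x‖ ^ 2 := by
    rw [intervalIntegral.integral_eq_integral_of_support_subset]
    · congr 1
      funext x
      rw [hnorm0']
    · intro x hx
      by_contra hcon
      apply hx
      have : x ∉ Set.Ioo (-R) R := fun h => hcon (Set.Ioo_subset_Ioc_self h)
      show ‖U0' x‖ ^ 2 = 0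
      rw [hnorm0']
      apply Finset.sum_eq_zero
      intro n _
      rw [(hR n x this).2]
      simp
  have hIW : ∫ x, (deriv (fun y => ∑ n, ‖u n y‖ ^ 2) x) ^ 2 / (4 * ∑ n, ‖u n x‖ ^ 2)
      = ∫ x in (-R)..R, (inner ℂ (U0 x) (U0' x)).re ^ 2 / ‖U0 x‖ ^ 2 := by
    rw [intervalIntegral.integral_eq_integral_of_support_subset]
    · congr 1
      funext x
      rw [hderiv, ← hnorm0]
      have : (2 * (inner ℂ (U0 x) (U0' x)).re) ^ 2 / (4 * ‖U0 x‖ ^ 2)
          = (4 * (inner ℂ (U0 x) (U0' x)).re ^ 2) / (4 * ‖U0 x‖ ^ 2) := by ring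
      rw [this, mul_div_mul_left _ _ (by norm_num)]
    · intro x hx
      by_contra hcon
      apply hx
      have : x ∉ Set.Ioo (-R) R := fun h => hcon (Set.Ioo_subset_Ioc_self h)
      simp [hout x this]
  -- the density matrix is at most one
  have hfull : ∀ v : EuclideanSpace ℂ (Fin N), ∫ y in (-R)..R, ‖inner ℂ (U0 y) v‖ ^ 2 ≤ ‖v‖ ^ 2 := by
    intro v
    rw [intervalIntegral.integral_eq_integral_of_support_subset]
    · have h1 := hsub (fun n => star (v n))
      have e1 : ∀ y, ‖inner ℂ (U0 y) v‖ ^ 2 = ‖∑ n, star (v n) * u n y‖ ^ 2 := by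
        intro y
        have : inner ℂ (U0 y) v = star (∑ n, star (v n) * u n y) := by
          rw [PiLp.inner_apply, star_sum]
          apply Finset.sum_congr rfl
          intro n _
          simp only [RCLike.inner_apply, hU0, star_mul', star_star]
          rw [RCLike.star_def]
        rw [this, norm_star]
      simp only [e1]
      calc _ ≤ ∑ n, ‖star (v n)‖ ^ 2 := h1
        _ = ‖v‖ ^ 2 := by
          rw [EuclideanSpace.norm_sq_eq]
          simp only [norm_star]
    · intro x hx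
      by_contra hcon
      apply hx
      have : x ∉ Set.Ioo (-R) R := fun h => hcon (Set.Ioo_subset_Ioc_self h)
      simp [hout x this]
  rw [hI6, hI2, hIW]
  have hI60 : 0 ≤ ∫ x in (-R)..R, ‖U0 x‖ ^ 6 :=
    intervalIntegral.integral_nonneg (by linarith) fun x _ => by positivity
  apply le_of_forall_eps (by positivity)
  intro ε hε hε2
  set c : ℝ := Real.sqrt (1 - 2 * ε) with hcdef
  have hc2 : c ^ 2 = 1 - 2 * ε := Real.sq_sqrt (by linarith)
  have hcpos : 0 < c := Real.sqrt_pos.mpr (by linarith)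
  set U : ℝ → EuclideanSpace ℂ (Fin N) := fun x => c • U0 x with hUdef
  have hUc : Continuous U := hc0.const_smul c
  have hUd : ∀ x, HasDerivAt U (c • U0' x) x := fun x => (hd0 x).const_smul c
  have hU'c : Continuous (fun x => c • U0' x) := hc0'.const_smul c
  have hip : ∀ y (v : EuclideanSpace ℂ (Fin N)), ‖inner ℂ (U y) v‖ ^ 2
      = (1 - 2 * ε) * ‖inner ℂ (U0 y) v‖ ^ 2 := by
    intro y v
    have : inner ℂ (U y) v = (c : ℂ) * inner ℂ (U0 y) v := by
      rw [hUdef]
      simp only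
      rw [show c • U0 y = (c : ℂ) • U0 y from (Complex.coe_smul c (U0 y)).symm, inner_smul_left,
        Complex.conj_ofReal]
    rw [this, norm_mul, mul_pow, Complex.norm_real, Real.norm_eq_abs, sq_abs, hc2]
  have hcore := core (a := -R) (b := R) (ε := ε) (by linarith) hε hε2 (U := U)
    (U' := fun x => c • U0' x) (M := Mop ε (-R) U) hUd hU'c (hasDerivAt_Mop hUc)
    (isSymmetric_Mop hUc) ?_ ?_ ?_ ?_
  · have e1 : ∫ x in (-R)..R, ‖U x‖ ^ 6 = (1 - 2 * ε) ^ 3 * ∫ x in (-R)..R, ‖U0 x‖ ^ 6 := by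
      rw [← intervalIntegral.integral_const_mul]
      apply intervalIntegral.integral_congr
      intro x _
      simp only [hUdef, norm_smul, Real.norm_eq_abs]
      rw [mul_pow, ← hc2, abs_of_pos hcpos]
      ring
    have e2 : ∫ x in (-R)..R, ‖c • U0' x‖ ^ 2 = (1 - 2 * ε) * ∫ x in (-R)..R, ‖U0' x‖ ^ 2 := by
      rw [← intervalIntegral.integral_const_mul]
      apply intervalIntegral.integral_congr
      intro x _
      simp only [norm_smul, Real.norm_eq_abs]
      rw [mul_pow, sq_abs, hc2]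
    have e3 : ∫ x in (-R)..R, (inner ℂ (U x) (c • U0' x)).re ^ 2 / ‖U x‖ ^ 2
        = (1 - 2 * ε) * ∫ x in (-R)..R, (inner ℂ (U0 x) (U0' x)).re ^ 2 / ‖U0 x‖ ^ 2 := by
      rw [← intervalIntegral.integral_const_mul]
      apply intervalIntegral.integral_congr
      intro x _
      have h1 : inner ℂ (U x) (c • U0' x) = ((c ^ 2 : ℝ) : ℂ) * inner ℂ (U0 x) (U0' x) := by
        rw [hUdef]
        simp only
        rw [show c • U0 x = (c : ℂ) • U0 x from (Complex.coe_smul c (U0 x)).symm,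
          show c • U0' x = (c : ℂ) • U0' x from (Complex.coe_smul c (U0' x)).symm,
          inner_smul_left, inner_smul_right, Complex.conj_ofReal]
        push_cast
        ring
      have h2 : ‖U x‖ ^ 2 = c ^ 2 * ‖U0 x‖ ^ 2 := by
        simp only [hUdef, norm_smul, Real.norm_eq_abs]
        rw [mul_pow, sq_abs]
      simp only
      rw [h1, h2, Complex.re_ofReal_mul, ← hc2]
      by_cases h0 : ‖U0 x‖ = 0
      · rw [h0]; simp
      · field_simp
    rw [e1, e2, e3] at hcore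
    have hp : 0 < 1 - 2 * ε := by linarith
    have : (1 - 2 * ε) * ((1 - 2 * ε) ^ 2 * (π ^ 2 / 3 * ∫ x in (-R)..R, ‖U0 x‖ ^ 6))
        ≤ (1 - 2 * ε) * ((∫ x in (-R)..R, ‖U0' x‖ ^ 2)
          + 3 * ∫ x in (-R)..R, (inner ℂ (U0 x) (U0' x)).re ^ 2 / ‖U0 x‖ ^ 2) := by
      calc _ = π ^ 2 / 3 * ((1 - 2 * ε) ^ 3 * ∫ x in (-R)..R, ‖U0 x‖ ^ 6) := by ring
        _ ≤ _ := hcore
        _ = _ := by ring
    exact le_of_mul_le_mul_left this hp
  · intro x hx v
    rw [re_inner_Mop hUc]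
    have : 0 ≤ ∫ y in (-R)..x, ‖inner ℂ (U y) v‖ ^ 2 :=
      intervalIntegral.integral_nonneg hx.1 fun y _ => by positivity
    linarith
  · intro x hx v
    rw [re_inner_Mop hUc]
    have hcont : Continuous (fun y => ‖inner ℂ (U y) v‖ ^ 2) := by fun_prop
    have h1 : ∫ y in (-R)..x, ‖inner ℂ (U y) v‖ ^ 2 ≤ ∫ y in (-R)..R, ‖inner ℂ (U y) v‖ ^ 2 := by
      apply intervalIntegral.integral_mono_interval le_rfl hx.1 hx.2
      · exact Filter.Eventually.of_forall fun y => by positivity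
      · exact hcont.intervalIntegrable _ _
    have h2 : ∫ y in (-R)..R, ‖inner ℂ (U y) v‖ ^ 2 ≤ (1 - 2 * ε) * ‖v‖ ^ 2 := by
      simp only [hip]
      rw [intervalIntegral.integral_const_mul]
      exact mul_le_mul_of_nonneg_left (hfull v) (by linarith)
    linarith
  · have : U0 (-R) = 0 := hout _ (by simp)
    simp [hUdef, this]
  · have : U0 R = 0 := hout _ (by simp)
    simp [hUdef, this]

end Pool.Agent.LiebG
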